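import Mathlib

namespace Pool.Agent.Results.MP_8fb7e7_co.Bound

open Classical

/-- `o` orients the `r`-uniform hypergraph `H`: for each edge `E`, `o E` lists the `r` vertices
of `E` in a linear order (position `0` first). -/
def IsOrientation {n r : ℕ} (H : Finset (Finset (Fin n))) (o : Finset (Fin n) → Fin r → Fin n) :
    Prop :=
  ∀ E ∈ H, Function.Injective (o E) ∧ Finset.univ.image (o E) = E

/-- `u` lies in an edge whose first `p` vertices all belong to `S`. -/
def Dom {n r : ℕ} (p : ℕ) (H : Finset (Finset (Fin n))) (o : Finset (Fin n) → Fin r → Fin n)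
    (S : Finset (Fin n)) (u : Fin n) : Prop :=
  ∃ E ∈ H, u ∈ E ∧ ∀ i : Fin r, i.val < p → o E i ∈ S

/-- `S` is a directed `p`-dominating set. -/
def IsDirDom {n r : ℕ} (p : ℕ) (H : Finset (Finset (Fin n)))
    (o : Finset (Fin n) → Fin r → Fin n) (S : Finset (Fin n)) : Prop :=
  ∀ u, u ∉ S → Dom p H o S u

/-- The independence number: the largest size of a vertex set containing no edge. -/
noncomputable def alpha {n : ℕ} (H : Finset (Finset (Fin n))) : ℕ :=
  (Finset.univ.filter fun S : Finset (Fin n) => ∀ E ∈ H, ¬ E ⊆ S).sup Finset.card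

lemma Dom.mono {n r p : ℕ} {H : Finset (Finset (Fin n))} {o : Finset (Fin n) → Fin r → Fin n}
    {S T : Finset (Fin n)} {u : Fin n} (h : Dom p H o S u) (hST : S ⊆ T) : Dom p H o T u := by
  obtain ⟨E, hE, hu, hi⟩ := h
  exact ⟨E, hE, hu, fun i h => hST (hi i h)⟩

lemma le_alpha {n : ℕ} (H : Finset (Finset (Fin n))) (S : Finset (Fin n))
    (h : ∀ E ∈ H, ¬ E ⊆ S) : S.card ≤ alpha H :=
  Finset.le_sup (f := Finset.card) (by simpa using h)

lemma few {n r p : ℕ} (hp : p + 1 ≤ r) {H : Finset (Finset (Fin n))}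
    {o : Finset (Fin n) → Fin r → Fin n} (ho : IsOrientation H o) (X : Finset (Fin n)) :
    (X.filter fun x => ¬ Dom p H o (X.erase x) x).card ≤ alpha H := by
  apply le_alpha
  intro E hE hsub
  obtain ⟨hinj, him⟩ := ho E hE
  have hmem : ∀ i, o E i ∈ E := by
    intro i
    have : o E i ∈ Finset.univ.image (o E) := Finset.mem_image_of_mem _ (Finset.mem_univ i)
    rwa [him] at this
  have h1 := Finset.mem_filter.mp (hsub (hmem ⟨p, by omega⟩))
  apply h1.2
  refine ⟨E, hE, hmem _, fun i hi => ?_⟩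
  rw [Finset.mem_erase]
  refine ⟨fun e => ?_, (Finset.mem_filter.mp (hsub (hmem i))).1⟩
  have := congrArg Fin.val (hinj e)
  simp at this
  omega

lemma step {n r p : ℕ} (hp : p + 1 ≤ r) {H : Finset (Finset (Fin n))}
    {o : Finset (Fin n) → Fin r → Fin n} (ho : IsOrientation H o) (U : Finset (Fin n)) :
    ∃ Y : Finset (Fin n), Y.card ≤ 2 * alpha H ∧
      2 * (U.filter fun x => x ∉ Y ∧ ¬ Dom p H o Y x).card ≤ U.card := by
  by_cases hU : U.card ≤ 2 * alpha H
  · refine ⟨U, hU, ?_⟩
    have : (U.filter fun x => x ∉ U ∧ ¬ Dom p H o U x) = ∅ := by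
      apply Finset.filter_eq_empty_iff.mpr
      intro x hx h
      exact h.1 hx
    rw [this]; simp
  by_contra hcon
  push Not at hcon
  set m := 2 * alpha H with hm
  have hinj : ((U.powersetCard m).sigma
        fun Y => U.filter fun x => x ∉ Y ∧ ¬ Dom p H o Y x).card ≤
      ((U.powersetCard (m + 1)).sigma
        fun X => X.filter fun x => ¬ Dom p H o (X.erase x) x).card := by
    apply Finset.card_le_card_of_injOn (fun z => ⟨insert z.2 z.1, z.2⟩)
    · rintro ⟨Y, x⟩ hz
      simp only [Finset.mem_coe, Finset.mem_sigma, Finset.mem_powersetCard,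
        Finset.mem_filter] at hz ⊢
      obtain ⟨⟨hYU, hYc⟩, hxU, hxY, hd⟩ := hz
      refine ⟨⟨Finset.insert_subset hxU hYU, ?_⟩, Finset.mem_insert_self _ _, ?_⟩
      · rw [Finset.card_insert_of_notMem hxY, hYc]
      · rw [Finset.erase_insert hxY]; exact hd
    · rintro ⟨Y, x⟩ hz ⟨Y', x'⟩ hz' e
      simp only [Finset.mem_coe, Finset.mem_sigma, Finset.mem_powersetCard,
        Finset.mem_filter] at hz hz'
      simp only [Sigma.mk.injEq, heq_eq_eq] at e
      obtain ⟨e1, e2⟩ := e
      subst e2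
      have : Y = Y' := by
        rw [← Finset.erase_insert hz.2.2.1, e1, Finset.erase_insert hz'.2.2.1]
      subst this
      rfl
  rw [Finset.card_sigma, Finset.card_sigma] at hinj
  have hup : ∑ X ∈ U.powersetCard (m + 1),
      (X.filter fun x => ¬ Dom p H o (X.erase x) x).card ≤ U.card.choose (m + 1) * alpha H := by
    have := Finset.sum_le_card_nsmul (U.powersetCard (m + 1))
      (fun X => (X.filter fun x => ¬ Dom p H o (X.erase x) x).card) (alpha H)
      (fun X _ => few hp ho X)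
    simpa using this
  have hlo : U.card.choose m * (U.card + 1) ≤
      ∑ Y ∈ U.powersetCard m, 2 * (U.filter fun x => x ∉ Y ∧ ¬ Dom p H o Y x).card := by
    have := Finset.card_nsmul_le_sum (U.powersetCard m)
      (fun Y => 2 * (U.filter fun x => x ∉ Y ∧ ¬ Dom p H o Y x).card) (U.card + 1)
      (fun Y hY => hcon Y (le_of_eq (Finset.mem_powersetCard.mp hY).2))
    simpa using this
  rw [← Finset.mul_sum] at hlo
  have hc := Nat.choose_succ_right_eq U.card m
  have hpos : 0 < U.card.choose m := Nat.choose_pos (by omega)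
  have h1 : U.card.choose m * (U.card - m) ≤ U.card.choose m * U.card :=
    Nat.mul_le_mul_left _ (Nat.sub_le _ _)
  have h2 : U.card.choose m * (U.card + 1) ≤ U.card.choose (m + 1) * m := by
    calc _ ≤ 2 * (U.card.choose (m + 1) * alpha H) := by omega
      _ = U.card.choose (m + 1) * m := by rw [hm]; ring
  have h3 : U.card.choose (m + 1) * m ≤ U.card.choose (m + 1) * (m + 1) :=
    Nat.mul_le_mul_left _ (Nat.le_succ _)
  have h4 : U.card.choose m * (U.card + 1) = U.card.choose m * U.card + U.card.choose m := by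
    ring
  omega

lemma iter {n r p : ℕ} (hp : p + 1 ≤ r) {H : Finset (Finset (Fin n))}
    {o : Finset (Fin n) → Fin r → Fin n} (ho : IsOrientation H o) (k : ℕ) :
    ∀ U : Finset (Fin n), U.card < 2 ^ k → ∃ S : Finset (Fin n),
      S.card ≤ 2 * alpha H * k ∧ ∀ x ∈ U, x ∉ S → Dom p H o S x := by
  induction k with
  | zero =>
    intro U hU
    refine ⟨∅, by simp, fun x hx => ?_⟩
    have : U = ∅ := Finset.card_eq_zero.mp (by simpa using hU)
    rw [this] at hx
    simp at hx
  | succ k ih =>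
    intro U hU
    obtain ⟨Y, hY, hb⟩ := step hp ho U
    obtain ⟨S, hS, hd⟩ := ih (U.filter fun x => x ∉ Y ∧ ¬ Dom p H o Y x) (by
      rw [pow_succ] at hU; omega)
    refine ⟨Y ∪ S, ?_, fun x hx hxs => ?_⟩
    · calc (Y ∪ S).card ≤ Y.card + S.card := Finset.card_union_le _ _
        _ ≤ 2 * alpha H + 2 * alpha H * k := by omega
        _ = 2 * alpha H * (k + 1) := by ring
    · rw [Finset.mem_union, not_or] at hxs
      by_cases h : Dom p H o Y x
      · exact h.mono Finset.subset_union_left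
      · exact (hd x (Finset.mem_filter.mpr ⟨hx, hxs.1, h⟩) hxs.2).mono Finset.subset_union_right

theorem result : ∃ c : ℝ, 0 < c ∧ ∀ r p : ℕ, 1 ≤ p → p ≤ r - 1 → ∀ n : ℕ, 2 ≤ n →
    ∀ H : Finset (Finset (Fin n)), (∀ E ∈ H, E.card = r) →
    ∀ o : Finset (Fin n) → Fin r → Fin n, IsOrientation H o →
    ∃ S : Finset (Fin n), IsDirDom p H o S ∧ (S.card : ℝ) ≤ c * alpha H * Real.log n := by
  have hl2 : 0 < Real.log 2 := Real.log_pos (by norm_num)
  refine ⟨4 / Real.log 2, by positivity, ?_⟩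
  intro r p hp1 hp n hn H _ o ho
  obtain ⟨S, hS, hd⟩ := iter (p := p) (by omega) ho (Nat.log 2 n + 1) Finset.univ (by
    simpa using Nat.lt_pow_succ_log_self (by norm_num) n)
  refine ⟨S, fun u hu => hd u (Finset.mem_univ u) hu, ?_⟩
  have h1 : (2 : ℝ) ^ Nat.log 2 n ≤ n := by
    exact_mod_cast Nat.pow_log_le_self 2 (by omega : n ≠ 0)
  have h2 : (Nat.log 2 n : ℝ) * Real.log 2 ≤ Real.log n := by
    rw [← Real.log_pow]
    exact Real.log_le_log (by positivity) h1
  have h3 : Real.log 2 ≤ Real.log n :=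
    Real.log_le_log (by norm_num) (by exact_mod_cast hn)
  have h4 : (S.card : ℝ) ≤ 2 * alpha H * ((Nat.log 2 n : ℝ) + 1) := by exact_mod_cast hS
  have h5 : ((Nat.log 2 n : ℝ) + 1) ≤ 2 * Real.log n / Real.log 2 := by
    rw [le_div_iff₀ hl2]; nlinarith
  have ha : (0 : ℝ) ≤ alpha H := Nat.cast_nonneg _
  calc (S.card : ℝ) ≤ 2 * alpha H * ((Nat.log 2 n : ℝ) + 1) := h4
    _ ≤ 2 * alpha H * (2 * Real.log n / Real.log 2) := by gcongr
    _ = 4 / Real.log 2 * alpha H * Real.log n := by ring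

end Pool.Agent.Results.MP_8fb7e7_co.Bound
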